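import Mathlib
import Pool.Agent.H31.Rado

/-!
# A permutation group for which a random invariant graph is almost surely not the Rado graph,
# although some invariant graph is
-/

set_option autoImplicit false
open MeasureTheory ProbabilityTheory

namespace Pool.Agent.Results.MP_ac9a20_co.InfinitelyManyTwins

open Pool.Agent.H31.Rado

/-- The extension property: for all finite disjoint sets `U, W` of vertices there is a vertex
`z`, not in `U` and not in `W`, adjacent to every vertex of `U` and to no vertex of `W`. A graph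
on `ℕ` with this property is the Rado graph. -/
def ExtensionProperty {V : Type} (Γ : SimpleGraph V) : Prop :=
  ∀ U W : Finset V, Disjoint U W →
    ∃ z, z ∉ U ∧ z ∉ W ∧ (∀ u ∈ U, Γ.Adj z u) ∧ (∀ w ∈ W, ¬ Γ.Adj z w)

/-- `Γ` is `G`-invariant: every element of `G` maps edges to edges and non-edges to
non-edges. -/
def Invariant {V : Type} (G : Subgroup (Equiv.Perm V)) (Γ : SimpleGraph V) : Prop :=
  ∀ g ∈ G, ∀ x y : V, Γ.Adj (g x) (g y) ↔ Γ.Adj x y

/-- The set of orbits of `G` on the set of 2-element subsets of `V`. -/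
abbrev PairOrbit {V : Type} [DecidableEq V] (G : Subgroup (Equiv.Perm V)) : Type :=
  MulAction.orbitRel.Quotient G (Set.powersetCard V 2)

/-- The orbit of the 2-element set `{x, y}`. -/
def orbitOf {V : Type} [DecidableEq V] (G : Subgroup (Equiv.Perm V)) (x y : V) (h : x ≠ y) :
    PairOrbit G :=
  Quotient.mk _ (⟨{x, y}, Set.powersetCard.mem_iff.2 (Finset.card_pair h)⟩ : Set.powersetCard V 2)

/-- The graph in which the pairs of an orbit `O` are edges if `c O = true` and non-edges if
`c O = false`. -/
def coinGraph {V : Type} [DecidableEq V] (G : Subgroup (Equiv.Perm V))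
    (c : PairOrbit G → Bool) : SimpleGraph V where
  Adj x y := ∃ h : x ≠ y, c (orbitOf G x y h) = true
  symm := ⟨fun x y h => by
    obtain ⟨h, hc⟩ := h
    refine ⟨h.symm, ?_⟩
    have e : orbitOf G y x h.symm = orbitOf G x y h := by
      unfold orbitOf
      simp only [Finset.pair_comm]
    rw [e]
    exact hc⟩
  loopless := ⟨fun x h => h.1 rfl⟩

/-- The law of one fair coin. -/
noncomputable def fairCoin : Measure Bool :=
  (2⁻¹ : ENNReal) • Measure.dirac true + (2⁻¹ : ENNReal) • Measure.dirac false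

instance : IsProbabilityMeasure fairCoin := ⟨by
  simp [fairCoin, ENNReal.inv_two_add_inv_two]⟩

/-- The product of fair coin measures, one coin for each orbit on 2-element subsets. -/
noncomputable def coins {V : Type} [DecidableEq V] (G : Subgroup (Equiv.Perm V)) :
    Measure (PairOrbit G → Bool) :=
  Measure.infinitePi (fun _ : PairOrbit G => fairCoin)

/-- Two different vertices that no third vertex distinguishes. -/
def Twins {V : Type} (Γ : SimpleGraph V) (x y : V) : Prop :=
  x ≠ y ∧ ∀ w, w ≠ x → w ≠ y → (Γ.Adj w x ↔ Γ.Adj w y)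

/-! ### Orbits -/

section Orbits

variable {V : Type} [DecidableEq V] (G : Subgroup (Equiv.Perm V))

theorem coe_smul_pair (g : G) (s : Set.powersetCard V 2) :
    ((g • s : Set.powersetCard V 2) : Finset V) = (s : Finset V).image (g : Equiv.Perm V) := by
  rw [Subgroup.smul_def, Set.powersetCard.coe_smul]
  rfl

theorem orbitOf_comm (x y : V) (h : x ≠ y) : orbitOf G x y h = orbitOf G y x h.symm := by
  unfold orbitOf
  simp only [Finset.pair_comm]

theorem orbitOf_eq_iff (x y x' y' : V) (h : x ≠ y) (h' : x' ≠ y') :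
    orbitOf G x y h = orbitOf G x' y' h' ↔
      ∃ g ∈ G, (g x = x' ∧ g y = y') ∨ (g x = y' ∧ g y = x') := by
  unfold orbitOf
  rw [Quotient.eq, MulAction.orbitRel_apply, MulAction.mem_orbit_iff]
  constructor
  · rintro ⟨g, hg⟩
    have hg' : ({g.1 x', g.1 y'} : Finset V) = {x, y} := by
      have := congrArg Subtype.val hg
      rw [coe_smul_pair] at this
      simpa [Finset.image_insert] using this
    refine ⟨g.1⁻¹, G.inv_mem g.2, ?_⟩
    have hx : x ∈ ({g.1 x', g.1 y'} : Finset V) := by rw [hg']; simp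
    have hy : y ∈ ({g.1 x', g.1 y'} : Finset V) := by rw [hg']; simp
    simp only [Finset.mem_insert, Finset.mem_singleton] at hx hy
    rcases hx with rfl | rfl <;> rcases hy with rfl | rfl
    · exact absurd rfl h
    · left; simp
    · right; simp
    · exact absurd rfl h
  · rintro ⟨g, hg, h1⟩
    refine ⟨⟨g⁻¹, G.inv_mem hg⟩, ?_⟩
    apply Subtype.ext
    rw [coe_smul_pair]
    rcases h1 with ⟨rfl, rfl⟩ | ⟨rfl, rfl⟩
    · simp [Finset.image_insert]
    · simp [Finset.image_insert, Finset.pair_comm]

theorem coinGraph_adj (c : PairOrbit G → Bool) (x y : V) (h : x ≠ y) :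
    (coinGraph G c).Adj x y ↔ c (orbitOf G x y h) = true :=
  ⟨fun ⟨_, hc⟩ => hc, fun hc => ⟨h, hc⟩⟩

theorem coinGraph_invariant (c : PairOrbit G → Bool) : Invariant G (coinGraph G c) := by
  intro g hg x y
  by_cases h : x = y
  · subst h
    simp
  · have h' : g x ≠ g y := fun e => h (g.injective e)
    rw [coinGraph_adj G c _ _ h', coinGraph_adj G c _ _ h,
      (orbitOf_eq_iff G x y (g x) (g y) h h').2 ⟨g, hg, Or.inl ⟨rfl, rfl⟩⟩]

theorem orbit_surj (O : PairOrbit G) : ∃ (x y : V) (h : x ≠ y), O = orbitOf G x y h := by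
  induction O using Quotient.inductionOn with
  | h s =>
    obtain ⟨s, hs⟩ := s
    obtain ⟨x, y, hxy, rfl⟩ := Finset.card_eq_two.1 hs
    exact ⟨x, y, hxy, rfl⟩

theorem exists_coins (Δ : SimpleGraph V) (hΔ : Invariant G Δ) :
    ∃! c : PairOrbit G → Bool, coinGraph G c = Δ := by
  classical
  choose fx fy fh fO using orbit_surj G
  refine ⟨fun O => decide (Δ.Adj (fx O) (fy O)), ?_, ?_⟩
  · ext x y
    by_cases h : x = y
    · subst h
      simp
    · rw [coinGraph_adj G _ _ _ h]
      obtain ⟨g, hg, ⟨h1, h2⟩ | ⟨h1, h2⟩⟩ := (orbitOf_eq_iff G _ _ _ _ h (fh _)).1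
        (fO (orbitOf G x y h))
      · simp only [decide_eq_true_eq]
        rw [← h1, ← h2, hΔ g hg]
      · simp only [decide_eq_true_eq]
        rw [← h1, ← h2, hΔ g hg, Δ.adj_comm]
  · rintro c rfl
    funext O
    have e := fO O
    rw [Bool.eq_iff_iff, decide_eq_true_eq, coinGraph_adj G c _ _ (fh O), ← e]

end Orbits

/-! ### The null set -/

theorem fairCoin_singleton (x : Bool) : fairCoin {x} = 2⁻¹ := by
  cases x <;> simp [fairCoin]

/-- If all the pairs of coins differ, then we are in a null set. -/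
theorem null_set {ι : Type} (f f' : ℕ → ι) (hf : Function.Injective f)
    (hf' : Function.Injective f') (hff' : ∀ i j, f i ≠ f' j) :
    (Measure.infinitePi (fun _ : ι => fairCoin)) {c : ι → Bool | ∀ j, c (f j) ≠ c (f' j)} = 0 := by
  classical
  set μ := Measure.infinitePi (fun _ : ι => fairCoin)
  have key : ∀ n : ℕ, μ {c : ι → Bool | ∀ j, c (f j) ≠ c (f' j)} ≤ (2⁻¹ : ENNReal) ^ n := by
    intro n
    let t : (Fin n → Bool) → ι → Set Bool := fun ε i =>
      {b | (∀ j : Fin n, i = f j → b = ε j) ∧ (∀ j : Fin n, i = f' j → b = !(ε j))}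
    let s : Finset ι := (Finset.univ : Finset (Fin n)).image (fun j : Fin n => f (j : ℕ)) ∪
      (Finset.univ : Finset (Fin n)).image (fun j : Fin n => f' (j : ℕ))
    have hsub : {c : ι → Bool | ∀ j, c (f j) ≠ c (f' j)} ⊆
        ⋃ ε : Fin n → Bool, Set.pi s (t ε) := by
      intro c hc
      refine Set.mem_iUnion.2 ⟨fun j => c (f j), ?_⟩
      intro i hi
      refine ⟨?_, ?_⟩
      · rintro j rfl
        rfl
      · rintro j rfl
        have h1 : c (f (j : ℕ)) ≠ c (f' (j : ℕ)) := hc (j : ℕ)
        show c (f' (j : ℕ)) = !(c (f (j : ℕ)))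
        revert h1
        cases c (f (j : ℕ)) <;> cases c (f' (j : ℕ)) <;> simp
    have hbox : ∀ ε : Fin n → Bool, μ (Set.pi s (t ε)) = (2⁻¹ : ENNReal) ^ (2 * n) := by
      intro ε
      rw [Measure.infinitePi_pi _ (fun i _ => by measurability)]
      have hdisj : Disjoint ((Finset.univ : Finset (Fin n)).image (fun j : Fin n => f (j : ℕ)))
          ((Finset.univ : Finset (Fin n)).image (fun j : Fin n => f' (j : ℕ))) := by
        rw [Finset.disjoint_left]
        intro x hx hx'
        obtain ⟨i, -, rfl⟩ := Finset.mem_image.1 hx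
        obtain ⟨j, -, hj⟩ := Finset.mem_image.1 hx'
        exact hff' i j hj.symm
      rw [Finset.prod_union hdisj, Finset.prod_image, Finset.prod_image]
      · have e1 : ∀ j : Fin n, t ε (f j) = {ε j} := by
          intro j
          ext b
          simp only [t, Set.mem_ofPred_eq, Set.mem_singleton_iff]
          constructor
          · rintro ⟨h, -⟩
            exact h j rfl
          · rintro rfl
            refine ⟨?_, ?_⟩
            · intro k hk
              have : j = k := Fin.ext (hf hk)
              rw [this]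
            · intro k hk
              exact absurd hk (hff' _ _)
        have e2 : ∀ j : Fin n, t ε (f' j) = {!(ε j)} := by
          intro j
          ext b
          simp only [t, Set.mem_ofPred_eq, Set.mem_singleton_iff]
          constructor
          · rintro ⟨-, h⟩
            exact h j rfl
          · rintro rfl
            refine ⟨?_, ?_⟩
            · intro k hk
              exact absurd hk.symm (hff' _ _)
            · intro k hk
              have : j = k := Fin.ext (hf' hk)
              rw [this]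
        simp only [e1, e2, fairCoin_singleton, Finset.prod_const, Finset.card_univ,
          Fintype.card_fin]
        rw [← pow_add, two_mul]
      · intro i _ j _ h
        exact Fin.ext (hf' h)
      · intro i _ j _ h
        exact Fin.ext (hf h)
    calc μ {c : ι → Bool | ∀ j, c (f j) ≠ c (f' j)} ≤ μ (⋃ ε : Fin n → Bool, Set.pi s (t ε)) :=
          measure_mono hsub
      _ ≤ ∑ ε : Fin n → Bool, μ (Set.pi s (t ε)) := measure_iUnion_fintype_le _ _
      _ = ∑ _ε : Fin n → Bool, (2⁻¹ : ENNReal) ^ (2 * n) := by simp only [hbox]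
      _ = (2 : ENNReal) ^ n * (2⁻¹ : ENNReal) ^ (2 * n) := by
          simp [Finset.sum_const, Finset.card_univ]
      _ = (2⁻¹ : ENNReal) ^ n := by
          rw [two_mul, pow_add, ← mul_assoc, ← mul_pow, ENNReal.mul_inv_cancel (by simp) (by simp),
            one_pow, one_mul]
  have hlim : Filter.Tendsto (fun n : ℕ => (2⁻¹ : ENNReal) ^ n) Filter.atTop (nhds 0) :=
    ENNReal.tendsto_pow_atTop_nhds_zero_of_lt_one (by simp)
  exact le_antisymm (ge_of_tendsto' hlim key) bot_le

/-! ### The example -/

theorem exists_data : ∃ z : ℕ, col z = 0 ∧ ∃ b b' : ℕ → ℕ, ∀ j, col (b j) = j + 1 ∧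
    col (b' j) = j + 1 ∧ bit.Adj z (b j) ∧ ¬ bit.Adj z (b' j) := by
  obtain ⟨z, -, -, hz, -, -⟩ := bit_ext_col 0 ∅ ∅ (by simp)
  refine ⟨z, hz, ?_⟩
  have h1 : ∀ j : ℕ, ∃ b, col b = j + 1 ∧ bit.Adj z b := by
    intro j
    obtain ⟨b, -, -, hb, hb1, -⟩ := bit_ext_col (j + 1) {z} ∅ (by simp)
    exact ⟨b, hb, (hb1 z (by simp)).symm⟩
  have h2 : ∀ j : ℕ, ∃ b, col b = j + 1 ∧ ¬ bit.Adj z b := by
    intro j
    obtain ⟨b, -, -, hb, -, hb1⟩ := bit_ext_col (j + 1) ∅ {z} (by simp)
    exact ⟨b, hb, fun h => hb1 z (by simp) h.symm⟩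
  choose b hb using h1
  choose b' hb' using h2
  exact ⟨b, b', fun j => ⟨(hb j).1, (hb' j).1, (hb j).2, (hb' j).2⟩⟩

/-- The main step: if the coins `f j` and `f' j` agree then `b j` and `b' j` are twins. -/
theorem exists_twins_data : ∃ b b' : ℕ → ℕ, Function.Injective b ∧ Function.Injective b' ∧
    ∃ f f' : ℕ → PairOrbit GG, Function.Injective f ∧ Function.Injective f' ∧
      (∀ i j, f i ≠ f' j) ∧
      ∀ (c : PairOrbit GG → Bool) (j : ℕ), c (f j) = c (f' j) →
        Twins (coinGraph GG c) (b j) (b' j) := by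
  obtain ⟨z, hz, b, b', hbb⟩ := exists_data
  have hzb : ∀ j, z ≠ b j := fun j h => by
    have := (hbb j).1
    rw [← h, hz] at this
    exact Nat.succ_ne_zero _ this.symm
  have hzb' : ∀ j, z ≠ b' j := fun j h => by
    have := (hbb j).2.1
    rw [← h, hz] at this
    exact Nat.succ_ne_zero _ this.symm
  have hbb' : ∀ j, b j ≠ b' j := fun j h => by
    have h1 := (hbb j).2.2.1
    have h2 := (hbb j).2.2.2
    rw [h] at h1
    exact h2 h1
  let f : ℕ → PairOrbit GG := fun j => orbitOf GG z (b j) (hzb j)
  let f' : ℕ → PairOrbit GG := fun j => orbitOf GG z (b' j) (hzb' j)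
  have hcol : ∀ x y x' y' : ℕ, ∀ h : x ≠ y, ∀ h' : x' ≠ y', col x = 0 → col x' = 0 →
      orbitOf GG x y h = orbitOf GG x' y' h' → col y = col y' := by
    intro x y x' y' h h' hx hx' heq
    obtain ⟨g, hg, ⟨h1, h2⟩ | ⟨h1, h2⟩⟩ := (orbitOf_eq_iff GG x y x' y' h h').1 heq
    · rw [← h2, hg.1]
    · rw [← hg.1 y, h2, hx', ← h1, hg.1, hx]
  have hf : Function.Injective f := by
    intro i j hij
    have := hcol _ _ _ _ _ _ hz hz hij
    rw [(hbb i).1, (hbb j).1] at this
    exact Nat.succ_injective this
  have hf' : Function.Injective f' := by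
    intro i j hij
    have := hcol _ _ _ _ _ _ hz hz hij
    rw [(hbb i).2.1, (hbb j).2.1] at this
    exact Nat.succ_injective this
  have hff' : ∀ i j, f i ≠ f' j := by
    intro i j hij
    obtain ⟨g, hg, hgg⟩ := (orbitOf_eq_iff GG _ _ _ _ _ _).1 hij
    have h1 : Γ.Adj z (b i) := ⟨Or.inl hz, (hbb i).2.2.1⟩
    have h2 : ¬ Γ.Adj z (b' j) := fun h => (hbb j).2.2.2 h.2
    rw [← hg.2] at h1
    rcases hgg with ⟨h3, h4⟩ | ⟨h3, h4⟩
    · rw [h3, h4] at h1
      exact h2 h1
    · rw [h3, h4] at h1
      exact h2 h1.symm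
  have hbi : Function.Injective b := by
    intro i j hij
    have h1 := (hbb i).1
    rw [hij, (hbb j).1] at h1
    exact (Nat.succ_injective h1).symm
  have hbi' : Function.Injective b' := by
    intro i j hij
    have h1 := (hbb i).2.1
    rw [hij, (hbb j).2.1] at h1
    exact (Nat.succ_injective h1).symm
  refine ⟨b, b', hbi, hbi', f, f', hf, hf', hff', fun c j hj => ⟨hbb' j, fun w h1 h2 => ?_⟩⟩
  rw [coinGraph_adj _ _ _ _ h1, coinGraph_adj _ _ _ _ h2]
  have hcb := (hbb j).1
  have hcb' := (hbb j).2.1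
  by_cases hw : col w = 0
  · have hor : ∀ x, ∀ h : w ≠ x, col x = j + 1 →
        orbitOf GG w x h = f j ∨ orbitOf GG w x h = f' j := by
      intro x h hx
      by_cases hadj : Γ.Adj w x
      · left
        obtain ⟨g, hg, hg1, hg2⟩ := exists_map_pair (x := w) (y := x) (x' := z) (y' := b j)
          h (hzb j) (by rw [hw, hz]) (by rw [hx, hcb])
          ⟨fun _ => ⟨Or.inl hz, (hbb j).2.2.1⟩, fun _ => hadj⟩
        exact (orbitOf_eq_iff GG _ _ _ _ _ _).2 ⟨g, hg, Or.inl ⟨hg1, hg2⟩⟩
      · right
        obtain ⟨g, hg, hg1, hg2⟩ := exists_map_pair (x := w) (y := x) (x' := z) (y' := b' j)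
          h (hzb' j) (by rw [hw, hz]) (by rw [hx, hcb'])
          ⟨fun h => absurd h hadj, fun h => absurd h.2 (hbb j).2.2.2⟩
        exact (orbitOf_eq_iff GG _ _ _ _ _ _).2 ⟨g, hg, Or.inl ⟨hg1, hg2⟩⟩
    have e1 : c (orbitOf GG w (b j) h1) = c (f j) := by
      rcases hor _ h1 hcb with h | h
      · rw [h]
      · rw [h, hj]
    have e2 : c (orbitOf GG w (b' j) h2) = c (f j) := by
      rcases hor _ h2 hcb' with h | h
      · rw [h]
      · rw [h, hj]
    rw [e1, e2]
  · have hn1 : ¬ Γ.Adj w (b j) := by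
      rintro ⟨h | h, -⟩
      · exact hw h
      · rw [hcb] at h
        exact Nat.succ_ne_zero _ h
    have hn2 : ¬ Γ.Adj w (b' j) := by
      rintro ⟨h | h, -⟩
      · exact hw h
      · rw [hcb'] at h
        exact Nat.succ_ne_zero _ h
    obtain ⟨g, hg, hg1, hg2⟩ := exists_map_pair (x := w) (y := b j) (x' := w) (y' := b' j)
      h1 h2 rfl (by rw [hcb, hcb']) ⟨fun h => absurd h hn1, fun h => absurd h hn2⟩
    rw [(orbitOf_eq_iff GG _ _ _ _ h1 h2).2 ⟨g, hg, Or.inl ⟨hg1, hg2⟩⟩]

/-- Almost surely there are twins beyond every bound. -/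
theorem ae_twins : ∀ᵐ c ∂(coins GG), ∀ N : ℕ, ∃ x y : ℕ, N < x ∧ N < y ∧
    Twins (coinGraph GG c) x y := by
  obtain ⟨b, b', hb, hb', f, f', hf, hf', hff', H⟩ := exists_twins_data
  rw [ae_all_iff]
  intro N
  obtain ⟨M, hM⟩ : ∃ M, ∀ j, M ≤ j → N < b j ∧ N < b' j := by
    have h1 := (hb.nat_tendsto_atTop).eventually (Filter.eventually_gt_atTop N)
    have h2 := (hb'.nat_tendsto_atTop).eventually (Filter.eventually_gt_atTop N)
    exact Filter.eventually_atTop.1 (h1.and h2)
  have hnull := null_set (fun j => f (j + M)) (fun j => f' (j + M))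
    (fun i j h => Nat.add_right_cancel (hf h)) (fun i j h => Nat.add_right_cancel (hf' h))
    (fun i j => hff' _ _)
  rw [ae_iff]
  refine measure_mono_null ?_ hnull
  intro c hc j hj
  exact hc ⟨b (j + M), b' (j + M), (hM _ (Nat.le_add_left _ _)).1, (hM _ (Nat.le_add_left _ _)).2,
    H c _ hj⟩

/-- A graph with twins does not have the extension property. -/
theorem not_ext_of_twins {V : Type} [DecidableEq V] (Δ : SimpleGraph V) (x y : V)
    (h : Twins Δ x y) : ¬ ExtensionProperty Δ := by
  intro hE
  obtain ⟨z, h1, h2, h3, h4⟩ := hE {x} {y} (by simpa using h.1)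
  rw [Finset.mem_singleton] at h1 h2
  exact h4 y (Finset.mem_singleton_self _) ((h.2 z h1 h2).1 (h3 x (Finset.mem_singleton_self _)))

/-- The extension property is invariant under isomorphism. -/
theorem ext_of_iso {V W : Type} [DecidableEq V] [DecidableEq W] (Δ : SimpleGraph V)
    (R : SimpleGraph W) (e : Δ ≃g R) (hR : ExtensionProperty R) : ExtensionProperty Δ := by
  intro U W hUW
  obtain ⟨z, h1, h2, h3, h4⟩ := hR (U.image e) (W.image e) (by
    rw [Finset.disjoint_left]
    intro a ha ha'
    obtain ⟨u, hu, rfl⟩ := Finset.mem_image.1 ha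
    obtain ⟨w, hw, hwu⟩ := Finset.mem_image.1 ha'
    rw [e.injective hwu] at hw
    exact Finset.disjoint_left.1 hUW hu hw)
  have hz : e (e.symm z) = z := e.apply_symm_apply z
  refine ⟨e.symm z, fun h => h1 (Finset.mem_image.2 ⟨_, h, hz⟩),
    fun h => h2 (Finset.mem_image.2 ⟨_, h, hz⟩), fun u hu => ?_, fun w hw => ?_⟩
  · rw [← e.map_adj_iff, hz]
    exact h3 _ (Finset.mem_image_of_mem _ hu)
  · rw [← e.map_adj_iff, hz]
    exact h4 _ (Finset.mem_image_of_mem _ hw)

/-- The law of independent fair coins is the product measure. -/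
theorem map_eq_coins {V : Type} [DecidableEq V] (G : Subgroup (Equiv.Perm V)) {S : Type*}
    [MeasurableSpace S] (P : Measure S) [IsProbabilityMeasure P] (X : PairOrbit G → S → Bool)
    (hX : ∀ O, Measurable (X O)) (hi : iIndepFun X P) (hfair : ∀ O, P {s | X O s = true} = 1 / 2) :
    P.map (fun s O => X O s) = coins G := by
  rw [iIndepFun.map_fun_eq_infinitePi_map hX hi, coins]
  congr 1
  funext O
  have hp : IsProbabilityMeasure (P.map (X O)) := Measure.isProbabilityMeasure_map (hX O).aemeasurable
  have h1 : P.map (X O) {true} = 2⁻¹ := by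
    rw [Measure.map_apply (hX O) (measurableSet_singleton _)]
    have := hfair O
    rw [one_div] at this
    exact this
  have h2 : P.map (X O) {false} = 2⁻¹ := by
    have e : ({false} : Set Bool) = {true}ᶜ := by
      ext b
      cases b <;> simp
    rw [e, prob_compl_eq_one_sub (measurableSet_singleton _), h1, ENNReal.one_sub_inv_two]
  apply Measure.ext_of_singleton
  intro b
  cases b
  · rw [h2, fairCoin_singleton]
  · rw [h1, fairCoin_singleton]

/-- There are a group `G` of permutations of `ℕ` and a `G`-invariant graph `Γ` with the extension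
property (that is, isomorphic to the Rado graph), such that a random `G`-invariant graph is
isomorphic to the Rado graph with probability `0`; almost surely a random `G`-invariant graph has,
beyond every bound, two vertices which no third vertex distinguishes. -/
theorem result.{u} :
    ∃ (G : Subgroup (Equiv.Perm ℕ)) (Γ : SimpleGraph ℕ),
      -- `Γ` is a `G`-invariant graph with the extension property
      Invariant G Γ ∧ ExtensionProperty Γ ∧
      -- the coins describe all `G`-invariant graphs
      (∀ c : PairOrbit G → Bool, Invariant G (coinGraph G c)) ∧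
      (∀ Δ : SimpleGraph ℕ, Invariant G Δ → ∃! c : PairOrbit G → Bool, coinGraph G c = Δ) ∧
      -- for the Rado graph `R`: `Γ` is isomorphic to `R`, a random graph is not
      (∀ R : SimpleGraph ℕ, ExtensionProperty R → Nonempty (Γ ≃g R) ∧
        coins G {c | Nonempty (coinGraph G c ≃g R)} = 0) ∧
      coins G {c | ExtensionProperty (coinGraph G c)} = 0 ∧
      -- almost surely there are twins beyond every bound
      (∀ᵐ c ∂(coins G), ∀ N : ℕ, ∃ x y : ℕ, N < x ∧ N < y ∧ Twins (coinGraph G c) x y) ∧
      -- the same for independent fair coins on any probability space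
      (∀ (S : Type u) [MeasurableSpace S] (P : Measure S) [IsProbabilityMeasure P]
        (X : PairOrbit G → S → Bool), (∀ O, Measurable (X O)) → iIndepFun X P →
        (∀ O, P {s | X O s = true} = 1 / 2) →
        P {s | ExtensionProperty (coinGraph G (fun O => X O s))} = 0) := by
  have hE : coins GG {c | ExtensionProperty (coinGraph GG c)} = 0 := by
    have h := ae_twins
    rw [ae_iff] at h
    refine measure_mono_null ?_ h
    intro c hc hN
    obtain ⟨x, y, -, -, h⟩ := hN 0
    exact not_ext_of_twins _ x y h hc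
  refine ⟨GG, Γ, fun g hg x y => hg.2 x y, Γ_ext, coinGraph_invariant GG, exists_coins GG, ?_, hE,
    ae_twins, ?_⟩
  · intro R hR
    refine ⟨iso_of_ext Γ R Γ_ext hR, measure_mono_null ?_ hE⟩
    rintro c ⟨e⟩
    exact ext_of_iso _ R e hR
  · intro S _ P _ X hX hi hfair
    have h := map_eq_coins GG P X hX hi hfair
    rw [← h] at hE
    exact Measure.preimage_null_of_map_null (measurable_pi_lambda _ hX).aemeasurable hE

end Pool.Agent.Results.MP_ac9a20_co.InfinitelyManyTwins
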